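import Pool.Agent.Lib.SVT.Main

/-!
# Planar graphs without cycles of length 4, 5, 6 are (7:2)-colourable

Every finite planar graph with no cycle of length 4, 5 or 6 has a (7:2)-colouring: every vertex
gets a 2-element subset of a set of 7 colours, adjacent vertices get disjoint sets. In particular
the fractional chromatic number is at most `7/2`. The same holds for all finite graphs with no
cycle of length 4, 5 or 6 in which every nonempty set `W` of vertices satisfies
`5 e(W) < 7 |W| + 4 T(W)` (`e(W)`, `T(W)`: numbers of edges and triangles inside `W`).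

The proof: planarity is used in the form of MacLane's theorem, which gives the inequality
`5 e(W) < 7 |W| + 4 T(W)`. In a minimal non-colourable set `W` some local configurations are
reducible (by counting pairs of colours), and a discharging argument contradicts the inequality.
-/

set_option autoImplicit false
set_option linter.style.haveILetI false

namespace Pool.Agent.Results.MP_db4fe4_co.SevenHalves

/-- The reversal of the darts (oriented edges) of a simple graph. -/
def flipDart {V : Type} (H : SimpleGraph V) : Equiv.Perm H.Dart :=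
  Function.Involutive.toPerm SimpleGraph.Dart.symm SimpleGraph.Dart.symm_involutive

/-- The connected graph `H` has a planar rotation system (the standard combinatorial description
of an embedding in the sphere): a permutation `σ` of its darts whose cycles are exactly the sets
of darts with the same starting vertex, such that `#V + #faces = #E + 2`, the faces being the
cycles of `σ * flipDart H`. -/
def SphereRotation {V : Type} (H : SimpleGraph V) : Prop :=
  H.Connected ∧ ∃ σ : Equiv.Perm H.Dart,
    (∀ d e : H.Dart, d.fst = e.fst ↔ σ.SameCycle d e) ∧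
    Nat.card V + Nat.card (Quotient (Equiv.Perm.SameCycle.setoid (σ * flipDart H))) =
      Nat.card H.edgeSet + 2

/-- Planarity of a finite simple graph: it has no edge, or it is a spanning subgraph of a
connected graph with a planar rotation system. -/
def Planar {V : Type} (G : SimpleGraph V) : Prop :=
  G = ⊥ ∨ ∃ H : SimpleGraph V, G ≤ H ∧ SphereRotation H

/-- Every nonempty set `W` of vertices satisfies `5 e(W) < 7 |W| + 4 T(W)`, where `e(W)` is the
number of edges and `T(W)` the number of triangles inside `W`. -/
def Sparse {V : Type} (G : SimpleGraph V) : Prop :=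
  ∀ W : Finset V, W.Nonempty →
    5 * {e | e ∈ G.edgeSet ∧ ∀ v ∈ e, v ∈ W}.ncard <
      7 * W.card + 4 * {T : Finset V | T ⊆ W ∧ G.IsNClique 3 T}.ncard

theorem result (V : Type) [Finite V] (G : SimpleGraph V) (hG : Planar G ∨ Sparse G)
    (hcyc : ∀ (v : V) (c : G.Walk v v), c.IsCycle →
      c.length ≠ 4 ∧ c.length ≠ 5 ∧ c.length ≠ 6) :
    ∃ φ : V → Finset (Fin 7), (∀ v, (φ v).card = 2) ∧
      ∀ u v, G.Adj u v → Disjoint (φ u) (φ v) := by
  classical
  haveI := Fintype.ofFinite V
  rcases hG with (rfl | ⟨H, hGH, hconn, σ, hσ, heul⟩) | hs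
  · refine ⟨fun _ => {0, 1}, fun v => ?_, fun u v h => ?_⟩
    · exact (by decide : ({0, 1} : Finset (Fin 7)).card = 2)
    · exact absurd h (by simp)
  · have hML : Pool.Agent.Lib.SVT.ML (Pool.Agent.Lib.SVT.edg H Finset.univ) :=
      Pool.Agent.Lib.SVT.ML_of_rot H hconn σ hσ heul
    have hML' : Pool.Agent.Lib.SVT.ML (Pool.Agent.Lib.SVT.edg G Finset.univ) := by
      refine hML.mono fun e he => ?_
      rw [Pool.Agent.Lib.SVT.mem_edg] at he ⊢
      exact ⟨SimpleGraph.edgeSet_mono hGH he.1, fun v _ => Finset.mem_univ v⟩
    exact Pool.Agent.Lib.SVT.seven_two_sparse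
      (fun W hW => Pool.Agent.Lib.SVT.sparse hML' hcyc hW) hcyc
  · refine Pool.Agent.Lib.SVT.seven_two_sparse (fun W hW => ?_) hcyc
    have h := hs W hW
    have h1 : {e | e ∈ G.edgeSet ∧ ∀ v ∈ e, v ∈ W} = ↑(Pool.Agent.Lib.SVT.edg G W) := by
      ext e
      exact Pool.Agent.Lib.SVT.mem_edg.symm
    have h2 : {T : Finset V | T ⊆ W ∧ G.IsNClique 3 T} = ↑(Pool.Agent.Lib.SVT.tris G W) := by
      ext T
      refine Iff.trans ?_ Pool.Agent.Lib.SVT.mem_tris.symm
      constructor
      · rintro ⟨ha, hb⟩
        rw [SimpleGraph.isNClique_iff] at hb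
        exact ⟨ha, hb.2, fun u hu v hv huv => hb.1 hu hv huv⟩
      · rintro ⟨ha, hb, hc⟩
        refine ⟨ha, ?_⟩
        rw [SimpleGraph.isNClique_iff]
        exact ⟨fun u hu v hv huv => hc u hu v hv huv, hb⟩
    rw [h1, h2, Set.ncard_coe_finset, Set.ncard_coe_finset] at h
    exact h

end Pool.Agent.Results.MP_db4fe4_co.SevenHalves
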